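import Pool.Agent.H99.LU.CStmts

/-!
Project LU, part C, module RSD: right-angled Coxeter groups have chains of normal subgroups of
finite index with trivial intersection. The geometric representation over the integers is faithful.
-/

set_option autoImplicit false

open scoped BigOperators Topology
open Filter Pool.H3.L2

noncomputable section

namespace Pool.LU

open Classical in
/-- the bilinear form (with values `-2, 0, 2`) -/
def rsdC {V : Type} (adj : V → V → Prop) (u v : V) : ℤ :=
  if v = u then -2 else if adj u v then 0 else 2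

/-- the matrix of the reflection number `u` -/
def rsdM {V : Type} [DecidableEq V] (adj : V → V → Prop) (u : V) : Matrix V V ℤ :=
  fun i j => (if i = j then 1 else 0) + (if i = u then rsdC adj u j else 0)

section rsd

variable {V : Type} [Fintype V] [DecidableEq V] {adj : V → V → Prop}

omit [Fintype V] [DecidableEq V] in
theorem rsdC_self (u : V) : rsdC adj u u = -2 := if_pos rfl

theorem rsd_mul (A : Matrix V V ℤ) (u i j : V) :
    (A * rsdM adj u) i j = A i j + A i u * rsdC adj u j := by
  rw [Matrix.mul_apply]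
  have h1 : ∀ k, A i k * rsdM adj u k j =
      (if k = j then A i k else 0) + (if k = u then A i k * rsdC adj u j else 0) := by
    intro k
    unfold rsdM
    by_cases h1 : k = j <;> by_cases h2 : k = u <;> simp [h1, h2, mul_add]
  simp only [h1, Finset.sum_add_distrib, Finset.sum_ite_eq', Finset.mem_univ, if_true]

theorem rsd_sq (u : V) : rsdM adj u * rsdM adj u = 1 := by
  ext i j
  rw [rsd_mul]
  have h := rsdC_self (adj := adj) u
  unfold rsdM
  by_cases h1 : i = u
  · subst h1
    rw [h, Matrix.one_apply]
    simp only [if_true]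
    ring
  · rw [Matrix.one_apply]
    simp only [h1, if_false]
    ring

theorem rsd_comm (hs : ∀ u v, adj u v → adj v u) (u v : V) (huv : adj u v) :
    rsdM adj u * rsdM adj v = rsdM adj v * rsdM adj u := by
  by_cases hne : v = u
  · rw [hne]
  ext i j
  rw [rsd_mul, rsd_mul]
  have h1 : rsdC adj u v = 0 := by
    unfold rsdC
    rw [if_neg hne, if_pos huv]
  have h2 : rsdC adj v u = 0 := by
    unfold rsdC
    rw [if_neg (Ne.symm hne), if_pos (hs u v huv)]
  unfold rsdM
  by_cases hi : i = u
  · subst hi
    simp only [if_true, h1, h2, if_neg (Ne.symm hne)]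
    ring
  · by_cases hi' : i = v
    · subst hi'
      simp only [if_true, h1, h2, hi, if_false]
      ring
    · simp only [hi, hi', if_false, h1, h2]
      ring

/-- the reflection number `u` -/
def rsdT (adj : V → V → Prop) (u : V) : (Matrix V V ℤ)ˣ :=
  ⟨rsdM adj u, rsdM adj u, rsd_sq u, rsd_sq u⟩

variable {W : Type} [Group W]

/-- positivity of the roots -/
theorem rsd_pos (hs : ∀ u v, adj u v → adj v u) (R : RA V adj W) (f : W →* (Matrix V V ℤ)ˣ)
    (hf : ∀ v, f (R.s v) = rsdT adj v) (n : ℕ) : ∀ w : W, R.len w ≤ n →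
    (∀ v, R.len w < R.len (w * R.s v) → ∀ i, 0 ≤ (f w : Matrix V V ℤ) i v) ∧
    ∀ u v, u ≠ v → ¬ adj u v → ¬ adj v u →
      ∀ i, 0 ≤ (f w : Matrix V V ℤ) i u + (f w : Matrix V V ℤ) i v := by
  have hmul : ∀ (w : W) (u i j : V), (f (w * R.s u) : Matrix V V ℤ) i j =
      (f w : Matrix V V ℤ) i j + (f w : Matrix V V ℤ) i u * rsdC adj u j := by
    intro w u i j
    rw [map_mul, hf, Units.val_mul]
    exact rsd_mul _ _ _ _
  have hback : ∀ (w : W) (u : V), w * R.s u * R.s u = w := fun w u => by
    rw [mul_assoc, R.s_sq, mul_one]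
  induction n with
  | zero =>
    intro w hw
    have h0 : w = 1 := (R.len_one w).1 (by omega)
    subst h0
    rw [map_one, Units.val_one]
    refine ⟨fun v _ i => ?_, fun u v _ _ _ i => ?_⟩
    · rw [Matrix.one_apply]
      split_ifs <;> norm_num
    · rw [Matrix.one_apply, Matrix.one_apply]
      split_ifs <;> norm_num
  | succ n ih =>
    intro w hw
    by_cases hw' : R.len w ≤ n
    · exact ih w hw'
    have h1 : w ≠ 1 := by
      intro h
      have := (R.len_one w).2 h
      omega
    have hT : ∀ v, R.len w < R.len (w * R.s v) → ∀ i, 0 ≤ (f w : Matrix V V ℤ) i v := by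
      intro v hv i
      obtain ⟨u, hu⟩ := R.ne w h1
      have huv : v ≠ u := by
        rintro rfl
        omega
      have e1 := hmul (w * R.s u) u i v
      rw [hback] at e1
      have hlen : R.len (w * R.s u) ≤ n := by omega
      obtain ⟨ih1, ih2⟩ := ih (w * R.s u) hlen
      have hu' : R.len (w * R.s u) < R.len (w * R.s u * R.s u) := by
        rw [hback]
        exact hu
      by_cases hadj : adj v u
      · -- adjacent
        have h2 : R.len (w * R.s u) < R.len (w * R.s u * R.s v) := by
          have h3 := R.desc_s w v u hadj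
          have h4 := R.len_s (w * R.s u) v
          have h5 : ¬ R.len (w * R.s u * R.s v) < R.len (w * R.s u) := by
            intro h6
            have := h3.1 h6
            omega
          omega
        have h3 := ih1 v h2 i
        rw [e1]
        have h4 : rsdC adj u v = 0 ∨ 0 ≤ rsdC adj u v := by
          unfold rsdC
          rw [if_neg huv]
          split_ifs
          · left; rfl
          · right; norm_num
        have h5 := ih1 u hu' i
        rcases h4 with h4 | h4
        · rw [h4]
          simpa using h3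
        · positivity
      · have h3 := ih1 u hu' i
        have hadj' : ¬ adj u v := fun h => hadj (hs u v h)
        have h2 : rsdC adj u v = 2 := by
          unfold rsdC
          rw [if_neg huv, if_neg hadj']
        have h4 := ih2 u v (Ne.symm huv) hadj' hadj i
        rw [e1, h2]
        linarith
    refine ⟨hT, ?_⟩
    intro u v huv h2 h3 i
    by_cases hu : R.len (w * R.s u) < R.len w
    · have hlen : R.len (w * R.s u) ≤ n := by omega
      have h4 := (ih (w * R.s u) hlen).2 u v huv h2 h3 i
      have e1 := hmul (w * R.s u) u i u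
      have e2 := hmul (w * R.s u) u i v
      rw [hback] at e1 e2
      have h5 : rsdC adj u v = 2 := by
        unfold rsdC
        rw [if_neg (Ne.symm huv), if_neg h2]
      rw [e1, e2, rsdC_self, h5]
      linarith
    · by_cases hv : R.len (w * R.s v) < R.len w
      · have hlen : R.len (w * R.s v) ≤ n := by omega
        have h4 := (ih (w * R.s v) hlen).2 u v huv h2 h3 i
        have e1 := hmul (w * R.s v) v i u
        have e2 := hmul (w * R.s v) v i v
        rw [hback] at e1 e2
        have h5 : rsdC adj v u = 2 := by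
          unfold rsdC
          rw [if_neg huv, if_neg h3]
        rw [e1, e2, rsdC_self, h5]
        linarith
      · have h4 := R.len_s w u
        have h5 := R.len_s w v
        have h6 := hT u (by omega) i
        have h7 := hT v (by omega) i
        linarith

/-- the geometric representation is faithful -/
theorem rsd_faithful (hs : ∀ u v, adj u v → adj v u) (R : RA V adj W) (f : W →* (Matrix V V ℤ)ˣ)
    (hf : ∀ v, f (R.s v) = rsdT adj v) (w : W) (hw : (f w : Matrix V V ℤ) = 1) : w = 1 := by
  by_contra h1
  obtain ⟨v, hv⟩ := R.ne w h1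
  have hback : w * R.s v * R.s v = w := by
    rw [mul_assoc, R.s_sq, mul_one]
  have h2 := (rsd_pos hs R f hf _ (w * R.s v) le_rfl).1 v (by rw [hback]; exact hv) v
  have e1 : (f (w * R.s v) : Matrix V V ℤ) v v =
      (f w : Matrix V V ℤ) v v + (f w : Matrix V V ℤ) v v * rsdC adj v v := by
    rw [map_mul, hf, Units.val_mul]
    exact rsd_mul _ _ _ _
  rw [e1, hw, rsdC_self, Matrix.one_apply_eq] at h2
  norm_num at h2

end rsd

/-- RSD -/
theorem rsd (hU : UNIStmt) : RSDStmt := by
  intro V _ _ adj hs W _ R
  obtain ⟨f, hf⟩ := hU V adj hs W R (Matrix V V ℤ)ˣ (rsdT adj)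
    (fun v => Units.ext (rsd_sq v)) (fun u v h => Units.ext (rsd_comm hs u v h))
  let g : (i : ℕ) → W →* (V → ℤˣ) × (Matrix V V (ZMod (2 ^ i)))ˣ := fun i =>
    R.χ.prod ((Units.map ((Int.castRingHom (ZMod (2 ^ i))).mapMatrix (m := V)).toMonoidHom).comp f)
  have hg : ∀ i w, w ∈ (g i).ker ↔ R.χ w = 1 ∧
      ∀ a b, ((2 : ℤ) ^ i) ∣ (f w : Matrix V V ℤ) a b - (1 : Matrix V V ℤ) a b := by
    intro i w
    rw [MonoidHom.mem_ker, MonoidHom.prod_apply, Prod.mk_eq_one]
    refine and_congr Iff.rfl ?_
    rw [← Units.val_inj, Units.val_one, ← Matrix.ext_iff]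
    refine forall_congr' fun a => forall_congr' fun b => ?_
    have e1 : (2 : ℤ) ^ i = ((2 ^ i : ℕ) : ℤ) := by push_cast; rfl
    rw [e1, ← ZMod.intCast_zmod_eq_zero_iff_dvd, Int.cast_sub, sub_eq_zero]
    have e2 : (((1 : Matrix V V ℤ) a b : ℤ) : ZMod (2 ^ i)) = (1 : Matrix V V (ZMod (2 ^ i))) a b := by
      rw [Matrix.one_apply, Matrix.one_apply]
      split_ifs <;> simp
    rw [e2]
    rfl
  refine ⟨{ N := fun i => (g i).ker, normal := fun i => inferInstance, fin := ?_, anti := ?_,
            inf := ?_, le := ?_ }⟩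
  · intro i
    have : NeZero (2 ^ i) := ⟨by positivity⟩
    have : Fintype (ZMod (2 ^ i)) := ZMod.fintype _
    have : Finite (Matrix V V (ZMod (2 ^ i))) := inferInstanceAs (Finite (V → V → ZMod (2 ^ i)))
    infer_instance
  · intro i j hij w hw
    rw [hg] at hw ⊢
    exact ⟨hw.1, fun a b => (pow_dvd_pow 2 hij).trans (hw.2 a b)⟩
  · rw [eq_bot_iff]
    intro w hw
    rw [Subgroup.mem_iInf] at hw
    rw [Subgroup.mem_bot]
    refine rsd_faithful hs R f hf w ?_
    ext a b
    have h1 : ∀ i : ℕ, (2 : ℤ) ^ i ∣ (f w : Matrix V V ℤ) a b - (1 : Matrix V V ℤ) a b :=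
      fun i => ((hg i w).1 (hw i)).2 a b
    have h2 : (f w : Matrix V V ℤ) a b - (1 : Matrix V V ℤ) a b = 0 := by
      set x := (f w : Matrix V V ℤ) a b - (1 : Matrix V V ℤ) a b
      refine Int.eq_zero_of_abs_lt_dvd (h1 x.natAbs) ?_
      have h3 : x.natAbs < 2 ^ x.natAbs := Nat.lt_two_pow_self
      rw [Int.abs_eq_natAbs]
      exact_mod_cast h3
    exact sub_eq_zero.1 h2
  · intro i w hw
    exact (MonoidHom.mem_ker).2 ((hg i w).1 hw).1

end Pool.LU
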